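import Pool.Agent.Helper9.TDUniq

/-!
# Existence of nonzero lowering maps

With `ϑ_i = ∑_{h < i} (θ_h - θ_{d-h}) / (θ_0 - θ_d)` the map `τ_i ↦ ϑ_i τ_{i-1}` is also
`ρ_i ↦ ϑ_i ρ_{i-1}`, and `ϑ_1 = 1`.
-/

set_option autoImplicit false

namespace Pool.Agent.Results.MP_87e037_al.LoweringMap

open Polynomial Module Pool.Agent.Helper9.TD

/-- `τ_i = ∏_{h < i} (λ - θ_h)` -/
noncomputable def tau {K : Type*} [Field K] (θ : ℕ → K) (i : ℕ) : K[X] :=
  ∏ h ∈ Finset.range i, (X - C (θ h))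

/-- `ρ_i = ∏_{h < i} (λ - θ_{d-h})` -/
noncomputable def rho {K : Type*} [Field K] (d : ℕ) (θ : ℕ → K) (i : ℕ) : K[X] :=
  ∏ h ∈ Finset.range i, (X - C (θ (d - h)))

/-- `Ψ` maps `p 0` to `0` and, for `1 ≤ i ≤ d`, maps `p i` to a multiple of `p (i - 1)`. Here `V` is
the space of the polynomials of degree at most `d`. -/
def Lowers {K : Type*} [Field K] (d : ℕ) (p : ℕ → K[X])
    (Ψ : degreeLT K (d + 1) →ₗ[K] degreeLT K (d + 1)) : Prop :=
  (∀ v : degreeLT K (d + 1), (v : K[X]) = p 0 → Ψ v = 0) ∧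
  ∀ i, 1 ≤ i → i ≤ d → ∀ v : degreeLT K (d + 1), (v : K[X]) = p i →
    ∃ c : K, (Ψ v : K[X]) = c • p (i - 1)

/-- Lowering maps on the space of polynomials of degree at most `d`. -/
def IsLoweringMap {K : Type*} [Field K] (d : ℕ) (θ : ℕ → K)
    (Ψ : degreeLT K (d + 1) →ₗ[K] degreeLT K (d + 1)) : Prop :=
  Lowers d (tau θ) Ψ ∧ Lowers d (rho d θ) Ψ

/-- Condition (*): the ratio `(θ_{i-2} - θ_{i+1}) / (θ_{i-1} - θ_i)` takes the same value for all `i`
with `2 ≤ i ≤ d - 1`. -/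
def Recurrent {K : Type*} [Field K] (d : ℕ) (θ : ℕ → K) : Prop :=
  ∀ i j, 2 ≤ i → i + 1 ≤ d → 2 ≤ j → j + 1 ≤ d →
    (θ (i - 2) - θ (i + 1)) / (θ (i - 1) - θ i) = (θ (j - 2) - θ (j + 1)) / (θ (j - 1) - θ j)

section

variable {K : Type*} [Field K]

theorem exists_beta (d : ℕ) (θ : ℕ → K) (inj : ∀ i ≤ d, ∀ j ≤ d, θ i = θ j → i = j)
    (h : Recurrent d θ) :
    ∃ β : K, ∀ i, i + 3 ≤ d → θ i - θ (i + 3) = (β + 1) * (θ (i + 1) - θ (i + 2)) := by
  refine ⟨(θ 0 - θ 3) / (θ 1 - θ 2) - 1, fun i hi => ?_⟩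
  have h1 := h 2 (i + 2) le_rfl (by omega) (by omega) (by omega)
  simp only [Nat.sub_self, Nat.add_sub_cancel, Nat.reduceAdd, Nat.reduceSub] at h1
  have h2 : i + 2 - 1 = i + 1 := by omega
  rw [h2] at h1
  rw [sub_add_cancel, h1, div_mul_cancel₀]
  exact sub_ne_zero.2 fun h3 => by
    have := inj (i + 1) (by omega) (i + 2) (by omega) h3
    omega

/-- the structure of the model -/
theorem exists_model (d : ℕ) (hd : 1 ≤ d) (θ : ℕ → K)
    (inj : ∀ i ≤ d, ∀ j ≤ d, θ i = θ j → i = j) (h : Recurrent d θ) :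
    ∃ (A B : Module.End K (Fin (d + 1) → K)) (e e' : ℕ → K →ₗ[K] (Fin (d + 1) → K))
      (f f' : ℕ → K), Function.Bijective (chainMap d e) ∧ e' 0 = e 0 ∧ f 1 = 1 ∧
      (∀ i x, A (e i x) = θ i • e i x + e (i + 1) x) ∧
      (∀ i ≤ d, ∀ x, A (e' i x) = θ (d - i) • e' i x + e' (i + 1) x) ∧
      (∀ x, B (e 0 x) = 0) ∧ (∀ i x, B (e (i + 1) x) = f (i + 1) • e i x) ∧
      (∀ i x, B (e' (i + 1) x) = f' (i + 1) • e' i x) ∧ e 0 1 ≠ 0 := by
  have had : θ 0 ≠ θ d := fun h' => by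
    have := inj 0 (by omega) d le_rfl h'
    omega
  obtain ⟨β, hβ⟩ := exists_beta d θ inj h
  obtain ⟨γ, a, ha, hav⟩ := exists_ext d θ β hβ
  have h0 : Rec β 0 (fun _ : ℤ => (0 : K)) := fun i => by simp
  have h1 := model_spl (F := K) d θ (fun _ => 0) (1 : K) (fun i => th d θ i)
    (fun i => by simp)
  have h2 := h1.toZ a (fun _ => 0) hav (fun _ _ => rfl)
  have had' : a 0 ≠ a d := by
    have e0 := hav 0 (by omega)
    have ed := hav d le_rfl
    rw [Nat.cast_zero] at e0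
    rw [e0, ed]
    exact had
  obtain ⟨e', c', h3, he⟩ := Spl.flip ha h0 had' h2
  have hbij := chainMap_bij_of h1
  refine ⟨mA K d θ, mB K d (fun _ => 0) (fun i => th d θ i), mE K d, e',
    fun i => th d θ i, fun i => thZ d (fun j => a (d - j)) i, hbij, he, th_one d θ had, h1.hA,
    ?_, fun x => by rw [h1.hB0, zero_smul], fun i x => ?_, fun i x => ?_, ?_⟩
  · intro i hi x
    rw [h3.hA i x]
    have h4 := hav (d - i) (by omega)
    have h5 : ((d - i : ℕ) : ℤ) = (d : ℤ) - i := by omega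
    rw [h5] at h4
    rw [h4]
  · rw [h1.hB i x, zero_smul, zero_add, phiOp_apply]
    simp only [LinearMap.mulLeft_apply, one_mul, sub_self, zero_mul, zero_smul, add_zero, map_smul]
  · rw [h3.hB i x, zero_smul, zero_add, phiZ_apply]
    simp only [LinearMap.mulLeft_apply, one_mul, kap, sub_self, zero_mul, zero_smul, add_zero,
      map_smul]
  · rw [Ne, funext_iff]
    push Not
    exact ⟨0, by rw [mE_apply]; simp⟩

theorem tau_mem (d : ℕ) (θ : ℕ → K) (i : ℕ) (hi : i ≤ d) : tau θ i ∈ degreeLT K (d + 1) := by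
  rw [mem_degreeLT, tau, degree_prod]
  simp only [degree_X_sub_C, Finset.sum_const, Finset.card_range, nsmul_eq_mul, mul_one]
  exact_mod_cast Nat.lt_succ_of_le hi

theorem rho_mem (d : ℕ) (θ : ℕ → K) (i : ℕ) (hi : i ≤ d) : rho d θ i ∈ degreeLT K (d + 1) := by
  rw [mem_degreeLT, rho, degree_prod]
  simp only [degree_X_sub_C, Finset.sum_const, Finset.card_range, nsmul_eq_mul, mul_one]
  exact_mod_cast Nat.lt_succ_of_le hi

end

/-- For every field `K`, every `d ≥ 1` and all pairwise distinct `θ 0, …, θ d` satisfying (*) there is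
a nonzero lowering map. -/
theorem result (K : Type*) [Field K] (d : ℕ) (hd : 1 ≤ d) (θ : ℕ → K)
    (inj : ∀ i ≤ d, ∀ j ≤ d, θ i = θ j → i = j) (h : Recurrent d θ) :
    ∃ Ψ : degreeLT K (d + 1) →ₗ[K] degreeLT K (d + 1), IsLoweringMap d θ Ψ ∧ Ψ ≠ 0 := by
  obtain ⟨A, B, e, e', f, f', hbij, he0, hf1, hA, hA', hB0, hB, hB', hne⟩ :=
    exists_model d hd θ inj h
  -- the evaluation map
  let π : degreeLT K (d + 1) →ₗ[K] (Fin (d + 1) → K) :=
    { toFun := fun v => aeval A (v : K[X]) (e 0 1)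
      map_add' := fun v w => by simp
      map_smul' := fun c v => by simp }
  have hπ : ∀ v, π v = aeval A (v : K[X]) (e 0 1) := fun v => rfl
  have hτ : ∀ i, aeval A (tau θ i) (e 0 1) = e i 1 := by
    intro i
    induction i with
    | zero => simp [tau]
    | succ i ih =>
      rw [tau, Finset.prod_range_succ, mul_comm, map_mul, Module.End.mul_apply]
      rw [tau] at ih
      rw [ih, map_sub, aeval_X, aeval_C, LinearMap.sub_apply, Module.algebraMap_end_apply, hA]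
      abel
  have hρ : ∀ i ≤ d + 1, aeval A (rho d θ i) (e 0 1) = e' i 1 := by
    intro i
    induction i with
    | zero => intro _; simp [rho, he0]
    | succ i ih =>
      intro hi
      have ih' := ih (by omega)
      rw [rho, Finset.prod_range_succ, mul_comm, map_mul, Module.End.mul_apply]
      rw [rho] at ih'
      rw [ih', map_sub, aeval_X, aeval_C, LinearMap.sub_apply, Module.algebraMap_end_apply,
        hA' i (by omega)]
      abel
  have hsurj : Function.Surjective π := by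
    intro w
    obtain ⟨x, rfl⟩ := hbij.2 w
    refine ⟨∑ i : Fin (d + 1), x i • ⟨tau θ i, tau_mem d θ i (Nat.lt_succ_iff.1 i.isLt)⟩, ?_⟩
    rw [map_sum, chainMap_apply]
    refine Finset.sum_congr rfl fun i _ => ?_
    rw [map_smul, hπ]
    simp only
    rw [hτ, ← map_smul, smul_eq_mul, mul_one]
  have hfr : finrank K (degreeLT K (d + 1)) = finrank K (Fin (d + 1) → K) :=
    (degreeLTEquiv K (d + 1)).finrank_eq
  have : Module.Finite K (degreeLT K (d + 1)) :=
    Module.Finite.equiv (degreeLTEquiv K (d + 1)).symm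
  have hinj : Function.Injective π :=
    (LinearMap.injective_iff_surjective_of_finrank_eq_finrank hfr).2 hsurj
  let E := LinearEquiv.ofBijective π ⟨hinj, hsurj⟩
  have hE : ∀ v, E v = aeval A (v : K[X]) (e 0 1) := fun v => rfl
  refine ⟨E.symm.toLinearMap ∘ₗ B ∘ₗ E.toLinearMap, ⟨⟨?_, ?_⟩, ⟨?_, ?_⟩⟩, ?_⟩
  · intro v hv
    simp only [LinearMap.comp_apply, LinearEquiv.coe_coe]
    rw [hE, hv, hτ, hB0, map_zero]
  · intro i hi hid v hv
    obtain ⟨j, rfl⟩ := Nat.exists_eq_add_of_le' hi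
    refine ⟨f (j + 1), ?_⟩
    simp only [LinearMap.comp_apply, LinearEquiv.coe_coe, Nat.add_sub_cancel]
    rw [hE, hv, hτ, hB, map_smul]
    have h1 : E.symm (e j 1) = ⟨tau θ j, tau_mem d θ j (by omega)⟩ := by
      rw [LinearEquiv.symm_apply_eq, hE, hτ]
    rw [h1]
    rfl
  · intro v hv
    simp only [LinearMap.comp_apply, LinearEquiv.coe_coe]
    rw [hE, hv, hρ 0 (by omega), he0, hB0, map_zero]
  · intro i hi hid v hv
    obtain ⟨j, rfl⟩ := Nat.exists_eq_add_of_le' hi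
    refine ⟨f' (j + 1), ?_⟩
    simp only [LinearMap.comp_apply, LinearEquiv.coe_coe, Nat.add_sub_cancel]
    rw [hE, hv, hρ _ (by omega), hB', map_smul]
    have h1 : E.symm (e' j 1) = ⟨rho d θ j, rho_mem d θ j (by omega)⟩ := by
      rw [LinearEquiv.symm_apply_eq, hE, hρ _ (by omega)]
    rw [h1]
    rfl
  · intro h0
    have h1 := DFunLike.congr_fun h0 ⟨tau θ 1, tau_mem d θ 1 hd⟩
    simp only [LinearMap.comp_apply, LinearEquiv.coe_coe, LinearMap.zero_apply] at h1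
    rw [hE] at h1
    simp only at h1
    rw [hτ, hB, hf1, one_smul] at h1
    rw [LinearEquiv.symm_apply_eq, map_zero] at h1
    exact hne h1

end Pool.Agent.Results.MP_87e037_al.LoweringMap
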